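import Pool.Agent.Helper40_LQF.WTU2

/-!
# Squad LQF, row WTU: the part of the functional which belongs to `W`

Author: helper40.
-/

set_option autoImplicit false

open scoped BigOperators Matrix

noncomputable section

namespace Pool.Agent.LE.QF.H40

open Pool.Agent.LE.QF

theorem wtu (jal : JalStmt) (jma : JmaStmt) (tri : TriStmt) (wab : WabStmt) : WtuStmt := by
  intro X _ _ q F ta v l S g e₀ ϖ δ ν τ p hF hta hta0 hta1 hτ hp he hϖ hδ _ hν hv hv0 hv1 _ _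
    hg _ hS hS0 _ hl hgA hAϖ htr
  have he0 : 0 < e₀ := by linarith
  obtain ⟨hdA, hdB, _, hform, _⟩ := wab X v S e₀ 1 τ ϖ p hv hv0 hS hS0 he0 one_pos hτ.le hϖ
    (by omega)
  obtain ⟨hWA, hAB⟩ := hform htr
  obtain ⟨A, hAe⟩ : ∃ A, A = e₀ • (1 : Matrix X X ℝ) + τ • S := ⟨_, rfl⟩
  obtain ⟨B, hBe⟩ : ∃ B, B = v + P0 X + ϖ • (1 : Matrix X X ℝ) := ⟨_, rfl⟩
  have hvt : vᵀ = v := Matrix.ext fun a b => hv b a
  have hSt : Sᵀ = S := Matrix.ext fun a b => hS b a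
  have hgt : ∀ c, (g c)ᵀ = g c := fun c => Matrix.ext fun a b => hg c b a
  have hPt : (P0 X)ᵀ = P0 X := rfl
  have hBt : Bᵀ = B := by
    rw [hBe, Matrix.transpose_add, Matrix.transpose_add, Matrix.transpose_smul,
      Matrix.transpose_one, hvt, hPt]
  -- the jet of `A`
  have jA : HM (fun r : ℝ × (X → ℝ) => e₀ • (1 : Matrix X X ℝ) + ta r.1 • S) q A
      (fun _ => 0) (-S) := by
    intro a b
    have hf : ContDiffAt ℝ 2 (fun t => e₀ * (1 : Matrix X X ℝ) a b + ta t * S a b) q.1 :=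
      contDiffAt_const.add (hta.mul contDiffAt_const)
    have h1 := (jal X ℝ q).2.2.2.2.2.2.1 _ hf
    have hdt : HasDerivAt ta (-1) q.1 := by
      have h2 := (hta.differentiableAt (by norm_num)).hasDerivAt
      rwa [hta1] at h2
    have hd : deriv (fun t => e₀ * (1 : Matrix X X ℝ) a b + ta t * S a b) q.1 =
        (-1) * S a b :=
      ((hdt.mul_const (S a b)).const_add (e₀ * (1 : Matrix X X ℝ) a b)).deriv
    rw [hd, hta0, neg_one_mul] at h1
    rw [hAe]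
    exact h1
  -- the jet of `B`
  have jB : HM (fun r : ℝ × (X → ℝ) => F r + P0 X + ϖ • (1 : Matrix X X ℝ)) q B g l := by
    intro a b
    have h1 := ((jal X ℝ q).2.2.1 _ _ _ _ _ _ _ _ (hF a b)
      ((jal X ℝ q).1 (P0 X a b + ϖ * (1 : Matrix X X ℝ) a b))).1
    simp only [add_zero] at h1
    rw [hBe]
    simp only [Matrix.add_apply, Matrix.smul_apply, smul_eq_mul, add_assoc]
    exact h1
  rw [← hAe] at hdA hWA hAB hgA hAϖ htr ⊢
  rw [← hBe] at hdB hWA hAB htr ⊢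
  have jAi := ((jma X ℝ q).2 X _ _ _ _ jA).1 hdA
  have jBi := ((jma X ℝ q).2 X _ _ _ _ jB).1 hdB
  have jR := (jma X ℝ q).1 X X X _ _ _ _ _ _ _ _ jAi jBi
  have jT := ((jma X ℝ q).2 X _ _ _ _ jR).2 p hp
  have e1 : -(A⁻¹ * -S * A⁻¹) = A⁻¹ * S * A⁻¹ := by
    simp only [mul_neg, neg_mul, neg_neg]
  rw [e1] at jT
  simp only [zero_mul, mul_zero, neg_zero, add_zero, Finset.sum_const_zero] at jT
  refine ⟨_, _, jT, ?_⟩
  have hWs : (B⁻¹)ᵀ = B⁻¹ := by rw [Matrix.transpose_nonsing_inv, hBt]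
  have hWB : (v + P0 X + ϖ • (1 : Matrix X X ℝ)) * B⁻¹ = 1 := by
    rw [← hBe]
    exact Matrix.mul_nonsing_inv B hdB
  have hAB' : ∀ f, qf A⁻¹ f ≤ qf (v + P0 X + ϖ • (1 : Matrix X X ℝ)) f := by
    rw [← hBe]
    exact hAB
  have hm := main tri (v := v) (l := l) (S := S) (W := B⁻¹) (A := A) (g := g) hτ hp he hϖ hδ hν
    hvt hv0 hv1 hgt hSt hS0 hl hgA hAϖ hAe hWs hWB hWA hAB'
  exact hm

end Pool.Agent.LE.QF.H40
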