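import Pool.Agent.LE.StmtsQG
import Pool.Agent.Helper48_Loc.Diag

/-!
# Squad LQF, row WTU, part 1: quadratic forms and traces

Author: helper40.
-/

set_option autoImplicit false
set_option linter.unusedSectionVars false

open scoped BigOperators Matrix

noncomputable section

namespace Pool.Agent.LE.QF.H40

open Pool.Agent.LE.QF

variable {X : Type} [Fintype X] [DecidableEq X]

theorem qf_dot (A : Matrix X X ℝ) (f : X → ℝ) : qf A f = f ⬝ᵥ (A *ᵥ f) := rfl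

theorem tr_dot (M : Matrix X X ℝ) (f g : X → ℝ) : f ⬝ᵥ (M *ᵥ g) = (Mᵀ *ᵥ f) ⬝ᵥ g := by
  rw [Matrix.dotProduct_mulVec, Matrix.mulVec_transpose]

theorem sym_dot {M : Matrix X X ℝ} (hM : Mᵀ = M) (f g : X → ℝ) :
    f ⬝ᵥ (M *ᵥ g) = (M *ᵥ f) ⬝ᵥ g := by
  rw [tr_dot, hM]

theorem qf_conj (D N : Matrix X X ℝ) (f : X → ℝ) : qf (Dᵀ * N * D) f = qf N (D *ᵥ f) := by
  rw [qf_dot, qf_dot, ← Matrix.mulVec_mulVec, ← Matrix.mulVec_mulVec, tr_dot,
    Matrix.transpose_transpose]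

theorem qf_add (A B : Matrix X X ℝ) (f : X → ℝ) : qf (A + B) f = qf A f + qf B f := by
  rw [qf_dot, qf_dot, qf_dot, Matrix.add_mulVec, dotProduct_add]

theorem qf_neg (A : Matrix X X ℝ) (f : X → ℝ) : qf (-A) f = -qf A f := by
  rw [qf_dot, qf_dot, Matrix.neg_mulVec, dotProduct_neg]

theorem qf_smul (c : ℝ) (A : Matrix X X ℝ) (f : X → ℝ) : qf (c • A) f = c * qf A f := by
  rw [qf_dot, qf_dot, Matrix.smul_mulVec, dotProduct_smul, smul_eq_mul]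

theorem qf_one (f : X → ℝ) : qf (1 : Matrix X X ℝ) f = f ⬝ᵥ f := by
  rw [qf_dot, Matrix.one_mulVec]

theorem qf_sum {κ : Type} (s : Finset κ) (A : κ → Matrix X X ℝ) (f : X → ℝ) :
    qf (∑ k ∈ s, A k) f = ∑ k ∈ s, qf (A k) f := by
  classical
  induction s using Finset.induction_on with
  | empty =>
    rw [Finset.sum_empty, Finset.sum_empty, qf_dot, Matrix.zero_mulVec, dotProduct_zero]
  | insert a s ha ih => rw [Finset.sum_insert ha, Finset.sum_insert ha, qf_add, ih]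

theorem sq_dot (f : X → ℝ) : ∑ a, f a ^ 2 = f ⬝ᵥ f := by
  unfold dotProduct
  exact Finset.sum_congr rfl fun a _ => pow_two _

theorem dot_nn (f : X → ℝ) : 0 ≤ f ⬝ᵥ f := by
  rw [← sq_dot]
  exact Finset.sum_nonneg fun a _ => sq_nonneg _

/-- the Cauchy-Schwarz trick: from `ϖ W ≤ δ` to `ϖ W² ≤ δ W` -/
theorem sq_le {W : Matrix X X ℝ} (hW : Wᵀ = W) (h0 : ∀ f, 0 ≤ qf W f) {ϖ δ : ℝ} (hϖ : 0 < ϖ)
    (hδ : 0 ≤ δ) (h : ∀ f : X → ℝ, ϖ * qf W f ≤ δ * (f ⬝ᵥ f)) (f : X → ℝ) :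
    ϖ * ((W *ᵥ f) ⬝ᵥ (W *ᵥ f)) ≤ δ * qf W f := by
  obtain ⟨u, hu⟩ : ∃ u, u = W *ᵥ f := ⟨_, rfl⟩
  rw [← hu]
  have h1 : qf W (δ • f - ϖ • u) = δ ^ 2 * qf W f - 2 * δ * ϖ * (u ⬝ᵥ u) + ϖ ^ 2 * qf W u := by
    have e1 : f ⬝ᵥ (W *ᵥ u) = u ⬝ᵥ u := by rw [sym_dot hW, ← hu]
    have e2 : u ⬝ᵥ (W *ᵥ f) = u ⬝ᵥ u := by rw [← hu]
    rw [qf_dot, qf_dot, qf_dot, Matrix.mulVec_sub, Matrix.mulVec_smul, Matrix.mulVec_smul,
      sub_dotProduct, dotProduct_sub, dotProduct_sub, smul_dotProduct, smul_dotProduct,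
      dotProduct_smul, dotProduct_smul, smul_dotProduct, smul_dotProduct, dotProduct_smul,
      dotProduct_smul, e1, e2]
    simp only [smul_eq_mul]
    ring
  have h2 := h0 (δ • f - ϖ • u)
  have h3 := h u
  have h4 := h0 f
  have h5 := dot_nn u
  rw [h1] at h2
  rcases hδ.eq_or_lt with h6 | h6
  · -- `δ = 0`
    rw [← h6] at h2 h3 ⊢
    have h7 : qf W u ≤ 0 := by nlinarith
    have h8 : ∀ t : ℝ, 0 ≤ qf W f - 2 * t * (u ⬝ᵥ u) + t ^ 2 * qf W u := by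
      intro t
      have h9 := h0 (f - t • u)
      have e1 : f ⬝ᵥ (W *ᵥ u) = u ⬝ᵥ u := by rw [sym_dot hW, ← hu]
      have e2 : u ⬝ᵥ (W *ᵥ f) = u ⬝ᵥ u := by rw [← hu]
      have e3 : qf W (f - t • u) = qf W f - 2 * t * (u ⬝ᵥ u) + t ^ 2 * qf W u := by
        rw [qf_dot, qf_dot, qf_dot, Matrix.mulVec_sub, Matrix.mulVec_smul,
          sub_dotProduct, dotProduct_sub, dotProduct_sub, smul_dotProduct, smul_dotProduct,
          dotProduct_smul, dotProduct_smul, e1, e2]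
        simp only [smul_eq_mul]
        ring
      rw [e3] at h9
      exact h9
    have h10 : qf W f ≤ 0 := by
      have := h f
      rw [← h6, zero_mul] at this
      nlinarith
    have h11 := h8 1
    nlinarith
  · nlinarith

theorem P0_mulVec (u : X → ℝ) : ∃ s : ℝ, (P0 X *ᵥ u = fun _ => s) ∧
    ∑ a, u a = Fintype.card X * s := by
  refine ⟨(Fintype.card X : ℝ)⁻¹ * ∑ a, u a, ?_, ?_⟩
  · funext a
    show ∑ b, P0 X a b * u b = _
    unfold P0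
    rw [Finset.mul_sum]
  · rcases isEmpty_or_nonempty X with h | h
    · rw [Fintype.card_eq_zero, Nat.cast_zero, zero_mul]
      exact Finset.sum_eq_zero fun a _ => (h.false a).elim
    · have h1 : (Fintype.card X : ℝ) ≠ 0 := by exact_mod_cast Fintype.card_ne_zero
      field_simp

/-- the form inequality for `LL W` -/
theorem form {v l W : Matrix X X ℝ} {g : X → Matrix X X ℝ} {A : Matrix X X ℝ}
    {ϖ δ ν τ : ℝ} (hτ : 0 < τ) (hϖ : 0 < ϖ) (hδ : 0 ≤ δ) (hv : vᵀ = v)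
    (hv0 : ∀ f, 0 ≤ qf v f) (hv1 : ∀ a, ∑ b, v a b = 0) (hg : ∀ c, (g c)ᵀ = g c)
    (hl : ∀ f : X → ℝ, ((1 - δ) * qf v f - ∑ a, (v *ᵥ f) a ^ 2) / τ ≤ qf l f)
    (hgA : ∀ f : X → ℝ, ∑ c, qf A (g c *ᵥ f) ≤ ν * qf v f) (hν : 0 ≤ ν)
    (hAϖ : ∀ f : X → ℝ, ϖ * qf A f ≤ δ * ∑ a, f a ^ 2)
    (hW : Wᵀ = W) (hWB : (v + P0 X + ϖ • (1 : Matrix X X ℝ)) * W = 1)
    (hWA : ∀ f, qf W f ≤ qf A f) (h : X → ℝ) :
    qf (-(W * l * W) + ∑ c, W * g c * W * g c * W) h ≤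
      (1 / τ) * (-(1 - 2 * δ) * qf W h + h ⬝ᵥ h) + ν * qf W h ∧
    qf v (W *ᵥ h) ≤ qf W h ∧ 0 ≤ qf W h := by
  obtain ⟨u, hu⟩ : ∃ u, u = W *ᵥ h := ⟨_, rfl⟩
  obtain ⟨s, hs1, hs2⟩ := P0_mulVec u
  obtain ⟨N, hN⟩ : ∃ N : ℝ, N = Fintype.card X := ⟨_, rfl⟩
  have hN0 : 0 ≤ N := by rw [hN]; positivity
  have hBu : h = v *ᵥ u + (fun _ => s) + ϖ • u := by
    have e1 : (v + P0 X + ϖ • (1 : Matrix X X ℝ)) *ᵥ u = h := by
      rw [hu, Matrix.mulVec_mulVec, hWB, Matrix.one_mulVec]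
    rw [← e1, Matrix.add_mulVec, Matrix.add_mulVec, hs1, Matrix.smul_mulVec, Matrix.one_mulVec]
  have hc1 : (fun _ => s : X → ℝ) ⬝ᵥ u = N * s ^ 2 := by
    show ∑ a, s * u a = _
    rw [← Finset.mul_sum, hs2, hN]
    ring
  have hc2 : (fun _ => s : X → ℝ) ⬝ᵥ (fun _ => s) = N * s ^ 2 := by
    show ∑ _a : X, s * s = _
    rw [Finset.sum_const, nsmul_eq_mul, Finset.card_univ, hN]
    ring
  have hc3 : (fun _ => s : X → ℝ) ⬝ᵥ (v *ᵥ u) = 0 := by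
    rw [sym_dot hv]
    have e1 : v *ᵥ (fun _ => s : X → ℝ) = 0 := by
      funext a
      show ∑ b, v a b * s = 0
      rw [← Finset.sum_mul, hv1, zero_mul]
    rw [e1, zero_dotProduct]
  have hqW : qf W h = qf v u + N * s ^ 2 + ϖ * (u ⬝ᵥ u) := by
    have e1 : qf W h = h ⬝ᵥ u := by rw [qf_dot, hu]
    rw [e1]
    conv_lhs => rw [hBu]
    rw [add_dotProduct, add_dotProduct, smul_dotProduct, hc1, dotProduct_comm (v *ᵥ u) u, qf_dot,
      smul_eq_mul]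
  have hhh : h ⬝ᵥ h = (v *ᵥ u) ⬝ᵥ (v *ᵥ u) + N * s ^ 2 + ϖ ^ 2 * (u ⬝ᵥ u) +
      2 * ϖ * qf v u + 2 * ϖ * (N * s ^ 2) := by
    conv_lhs => rw [hBu]
    rw [add_dotProduct, add_dotProduct, dotProduct_add, dotProduct_add, dotProduct_add,
      dotProduct_add, dotProduct_add, dotProduct_add, smul_dotProduct, smul_dotProduct,
      smul_dotProduct, dotProduct_smul, dotProduct_smul, dotProduct_smul, hc1, hc2, hc3,
      dotProduct_comm (v *ᵥ u) (fun _ => s), hc3, dotProduct_comm (v *ᵥ u) u,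
      dotProduct_comm u (fun _ => s), hc1, qf_dot]
    simp only [smul_eq_mul]
    ring
  have hvu := hv0 u
  have huu := dot_nn u
  have hs0 : 0 ≤ N * s ^ 2 := by positivity
  have hW0 : ∀ f, 0 ≤ qf W f := by
    intro f
    obtain ⟨u', hu'⟩ : ∃ u', u' = W *ᵥ f := ⟨_, rfl⟩
    obtain ⟨s', hs1', hs2'⟩ := P0_mulVec u'
    have e0 : f = v *ᵥ u' + (fun _ => s') + ϖ • u' := by
      have e1 : (v + P0 X + ϖ • (1 : Matrix X X ℝ)) *ᵥ u' = f := by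
        rw [hu', Matrix.mulVec_mulVec, hWB, Matrix.one_mulVec]
      rw [← e1, Matrix.add_mulVec, Matrix.add_mulVec, hs1', Matrix.smul_mulVec,
        Matrix.one_mulVec]
    have e1 : qf W f = f ⬝ᵥ u' := by rw [qf_dot, hu']
    have e2 : (fun _ => s' : X → ℝ) ⬝ᵥ u' = N * s' ^ 2 := by
      show ∑ a, s' * u' a = _
      rw [← Finset.mul_sum, hs2', hN]
      ring
    rw [e1]
    conv_rhs => rw [e0]
    rw [add_dotProduct, add_dotProduct, smul_dotProduct, e2, dotProduct_comm (v *ᵥ u') u',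
      smul_eq_mul]
    have e3 := hv0 u'
    rw [qf_dot] at e3
    have e4 := dot_nn u'
    have e5 : 0 ≤ N * s' ^ 2 := by positivity
    have e6 : 0 ≤ ϖ * (u' ⬝ᵥ u') := mul_nonneg hϖ.le e4
    linarith
  have hWϖ : ∀ f : X → ℝ, ϖ * qf W f ≤ δ * (f ⬝ᵥ f) := by
    intro f
    have e1 := hAϖ f
    rw [sq_dot] at e1
    exact (mul_le_mul_of_nonneg_left (hWA f) hϖ.le).trans e1
  have hsq := sq_le hW hW0 hϖ hδ hWϖ h
  rw [← hu] at hsq
  have hpu : 0 ≤ ϖ * (u ⬝ᵥ u) := mul_nonneg hϖ.le huu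
  refine ⟨?_, ?_, hW0 h⟩
  · rw [qf_add, qf_neg, qf_sum]
    have e1 : qf (W * l * W) h = qf l u := by
      have e2 := qf_conj W l h
      rw [hW] at e2
      rw [e2, hu]
    have e3 : ∀ c, qf (W * g c * W * g c * W) h = qf W (g c *ᵥ u) := by
      intro c
      have e2 := qf_conj (g c * W) W h
      rw [Matrix.transpose_mul, hW, hg] at e2
      rw [hu, Matrix.mulVec_mulVec, ← e2]
      congr 1
      simp only [mul_assoc]
    rw [e1, Finset.sum_congr rfl fun c _ => e3 c]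
    have e4 : ∑ c, qf W (g c *ᵥ u) ≤ ν * qf W h := by
      refine (Finset.sum_le_sum fun c _ => hWA _).trans ((hgA u).trans ?_)
      refine mul_le_mul_of_nonneg_left ?_ hν
      rw [hqW]
      linarith
    have e5 := hl u
    rw [sq_dot, div_le_iff₀ hτ] at e5
    have e6 : -qf l u ≤ (1 / τ) * (-(1 - 2 * δ) * qf W h + h ⬝ᵥ h) := by
      rw [one_div, inv_mul_eq_div, le_div_iff₀ hτ, hqW, hhh]
      have e7 : (1 - δ) * (ϖ * (u ⬝ᵥ u)) ≤ δ * (qf v u + N * s ^ 2) := by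
        rw [hqW] at hsq
        nlinarith
      have e8 : 0 ≤ ϖ * qf v u := mul_nonneg hϖ.le hvu
      have e9 : 0 ≤ ϖ * (N * s ^ 2) := mul_nonneg hϖ.le hs0
      have e10 : 0 ≤ ϖ ^ 2 * (u ⬝ᵥ u) := by positivity
      have e11 : 0 ≤ δ * (N * s ^ 2) := mul_nonneg hδ hs0
      have e12 : 0 ≤ δ * (ϖ * (u ⬝ᵥ u)) := mul_nonneg hδ hpu
      nlinarith
    linarith
  · rw [← hu, hqW]
    linarith

end Pool.Agent.LE.QF.H40
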