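import Pool.Agent.Helper40_LQF.WTU1

/-!
# Squad LQF, row WTU, part 2: the inequality for the traces

Author: helper40.
-/

set_option autoImplicit false
set_option linter.unusedSectionVars false

open scoped BigOperators Matrix

noncomputable section

namespace Pool.Agent.LE.QF.H40

open Pool.Agent.LE.QF

variable {X : Type} [Fintype X] [DecidableEq X]

/-- diagonalization -/
theorem diag {Y : Matrix X X ℝ} (hY : Yᵀ = Y) : ∃ (e : X → X → ℝ) (lam : X → ℝ),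
    (∀ i, e i ⬝ᵥ e i = 1) ∧ (∀ i, lam i = qf Y (e i)) ∧
    ∀ (m : ℕ) (N : Matrix X X ℝ), Matrix.trace (Y ^ m * N) = ∑ i, lam i ^ m * qf N (e i) := by
  obtain ⟨U, lam, h1, h2, h3⟩ := Pool.Agent.Loc.exists_diag_real hY
  have hen : ∀ (N : Matrix X X ℝ) (i : X), (Uᵀ * (N * U)) i i = qf N (fun a => U a i) :=
    fun _ _ => rfl
  refine ⟨fun i a => U a i, lam, fun i => ?_, fun i => ?_, fun m N => ?_⟩
  · have h4 := hen 1 i
    rw [one_mul, h1, Matrix.one_apply_eq, qf_one] at h4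
    exact h4.symm
  · have h4 := hen Y i
    have h5 := h3 1
    rw [pow_one] at h5
    rw [h5, mul_assoc, mul_assoc, h1, mul_one, ← mul_assoc, h1, one_mul,
      Matrix.diagonal_apply_eq, pow_one] at h4
    rw [h4]
    exact congrArg (fun M => qf M (fun a => U a i)) h5.symm
  · rw [h3 m, mul_assoc, mul_assoc, Matrix.trace_mul_comm, mul_assoc, mul_assoc, Matrix.trace]
    refine Finset.sum_congr rfl fun i _ => ?_
    rw [Matrix.diag_apply, Matrix.diagonal_mul, hen]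

/-- a factorization of the inverse of a positive definite matrix -/
theorem fac {A : Matrix X X ℝ} (hA : Aᵀ = A) {e₀ : ℝ} (he : 0 < e₀)
    (h : ∀ f : X → ℝ, e₀ * (f ⬝ᵥ f) ≤ qf A f) : ∃ D : Matrix X X ℝ, Dᵀ * A * D = 1 := by
  obtain ⟨U, lam, h1, h2, h3⟩ := Pool.Agent.Loc.exists_diag_real hA
  have h5 := h3 1
  rw [pow_one] at h5
  have hpos : ∀ i, 0 < lam i := by
    intro i
    have h6 : (Uᵀ * (A * U)) i i = qf A (fun a => U a i) := rfl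
    have h7 : (Uᵀ * ((1 : Matrix X X ℝ) * U)) i i = qf (1 : Matrix X X ℝ) (fun a => U a i) := rfl
    rw [one_mul, h1, Matrix.one_apply_eq, qf_one] at h7
    rw [h5, mul_assoc, mul_assoc, h1, mul_one, ← mul_assoc, h1, one_mul,
      Matrix.diagonal_apply_eq, pow_one] at h6
    have h8 := h (fun a => U a i)
    rw [← h7, mul_one] at h8
    rw [h6]
    have h9 : qf (U * Matrix.diagonal (fun l => lam l ^ 1) * Uᵀ) (fun a => U a i) =
        qf A (fun a => U a i) := congrArg (fun M => qf M (fun a => U a i)) h5.symm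
    have h10 : 0 < qf A (fun a => U a i) := by linarith
    exact lt_of_lt_of_eq h10 h9.symm
  refine ⟨U * Matrix.diagonal fun i => (Real.sqrt (lam i))⁻¹, ?_⟩
  rw [Matrix.transpose_mul, Matrix.diagonal_transpose, h5]
  have h6 : Matrix.diagonal (fun i => (Real.sqrt (lam i))⁻¹) * Uᵀ *
      (U * Matrix.diagonal (fun l => lam l ^ 1) * Uᵀ) *
      (U * Matrix.diagonal fun i => (Real.sqrt (lam i))⁻¹) =
      Matrix.diagonal (fun i => (Real.sqrt (lam i))⁻¹) * (Uᵀ * U) *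
        Matrix.diagonal (fun l => lam l ^ 1) * (Uᵀ * U) *
        Matrix.diagonal fun i => (Real.sqrt (lam i))⁻¹ := by
    simp only [mul_assoc]
  rw [h6, h1, mul_one, mul_one, Matrix.diagonal_mul_diagonal, Matrix.diagonal_mul_diagonal,
    ← Matrix.diagonal_one]
  congr 1
  funext i
  have h7 := hpos i
  have h8 : Real.sqrt (lam i) ≠ 0 := (Real.sqrt_pos.2 h7).ne'
  have h9 : Real.sqrt (lam i) * Real.sqrt (lam i) = lam i := Real.mul_self_sqrt h7.le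
  field_simp
  rw [pow_two, h9]

/-- the scalar inequality -/
theorem scal {y e₀ : ℝ} (hy : 0 ≤ y) (he : 1 ≤ e₀) (k : ℕ) :
    y ^ k - e₀ * y ^ (k + 1) ≤ (1 / e₀) ^ k := by
  have he0 : 0 < e₀ := by linarith
  rcases le_or_gt y (1 / e₀) with h | h
  · have h1 : y ^ k ≤ (1 / e₀) ^ k := pow_le_pow_left₀ hy h k
    have h2 : 0 ≤ e₀ * y ^ (k + 1) := by positivity
    linarith
  · have h1 : 1 < e₀ * y := by
      rw [div_lt_iff₀ he0] at h
      linarith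
    have h2 : y ^ k - e₀ * y ^ (k + 1) = y ^ k * (1 - e₀ * y) := by ring
    rw [h2]
    have h3 : y ^ k * (1 - e₀ * y) ≤ 0 :=
      mul_nonpos_of_nonneg_of_nonpos (by positivity) (by linarith)
    exact h3.trans (by positivity)

section core

variable {A D W : Matrix X X ℝ}

theorem R_pow (h1 : Dᵀ * A * D = 1) (h2 : D * Dᵀ * A = 1) (k : ℕ) :
    (D * Dᵀ * W) ^ k = D * (Dᵀ * W * D) ^ k * Dᵀ * A := by
  induction k with
  | zero => rw [pow_zero, pow_zero, mul_one, h2]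
  | succ k ih =>
    rw [pow_succ, ih, pow_succ]
    calc D * (Dᵀ * W * D) ^ k * Dᵀ * A * (D * Dᵀ * W) =
        D * (Dᵀ * W * D) ^ k * (Dᵀ * A * D) * Dᵀ * W := by simp only [mul_assoc]
      _ = D * (Dᵀ * W * D) ^ k * Dᵀ * W * (D * Dᵀ * A) := by rw [h1, h2, mul_one, mul_one]
      _ = D * ((Dᵀ * W * D) ^ k * (Dᵀ * W * D)) * Dᵀ * A := by simp only [mul_assoc]

theorem tr1 (h1 : Dᵀ * A * D = 1) (h2 : D * Dᵀ * A = 1) (k : ℕ) :
    Matrix.trace ((D * Dᵀ * W) ^ k) = Matrix.trace ((Dᵀ * W * D) ^ k) := by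
  rw [R_pow h1 h2, mul_assoc, mul_assoc, Matrix.trace_mul_comm, mul_assoc, h1, mul_one]

theorem tr2 (h1 : Dᵀ * A * D = 1) (h2 : D * Dᵀ * A = 1) (k : ℕ) (N : Matrix X X ℝ) :
    Matrix.trace ((D * Dᵀ * W) ^ k * (D * Dᵀ * N)) =
      Matrix.trace ((Dᵀ * W * D) ^ k * (Dᵀ * N * D)) := by
  rw [R_pow h1 h2]
  have e : D * (Dᵀ * W * D) ^ k * Dᵀ * A * (D * Dᵀ * N) =
      D * ((Dᵀ * W * D) ^ k * (Dᵀ * A * D) * Dᵀ * N) := by simp only [mul_assoc]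
  rw [e, h1, mul_one, Matrix.trace_mul_comm]
  simp only [mul_assoc]

theorem tr3 (h1 : Dᵀ * A * D = 1) (h2 : D * Dᵀ * A = 1) (k : ℕ) (S : Matrix X X ℝ) :
    Matrix.trace ((D * Dᵀ * W) ^ k * (D * Dᵀ * S * (D * Dᵀ) * W)) =
      Matrix.trace ((Dᵀ * W * D) ^ (k + 1) * (Dᵀ * S * D)) := by
  have e0 : D * Dᵀ * S * (D * Dᵀ) * W = D * Dᵀ * (S * (D * Dᵀ) * W) := by
    simp only [mul_assoc]
  rw [e0, tr2 h1 h2]
  have e : (Dᵀ * W * D) ^ k * (Dᵀ * (S * (D * Dᵀ) * W) * D) =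
      ((Dᵀ * W * D) ^ k * (Dᵀ * S * D)) * (Dᵀ * W * D) := by simp only [mul_assoc]
  rw [e, Matrix.trace_mul_comm, ← mul_assoc, ← pow_succ']

theorem tr4 (h1 : Dᵀ * A * D = 1) (h2 : D * Dᵀ * A = 1) (i j : ℕ) (N : Matrix X X ℝ) :
    Matrix.trace (D * Dᵀ * N * (D * Dᵀ * W) ^ i * (D * Dᵀ * N) * (D * Dᵀ * W) ^ j) =
      Matrix.trace (Dᵀ * N * D * (Dᵀ * W * D) ^ i * (Dᵀ * N * D) * (Dᵀ * W * D) ^ j) := by
  rw [R_pow h1 h2, R_pow h1 h2]
  have e : D * Dᵀ * N * (D * (Dᵀ * W * D) ^ i * Dᵀ * A) * (D * Dᵀ * N) *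
      (D * (Dᵀ * W * D) ^ j * Dᵀ * A) =
      D * (Dᵀ * N * D * (Dᵀ * W * D) ^ i * (Dᵀ * A * D) * (Dᵀ * N * D) *
        (Dᵀ * W * D) ^ j * Dᵀ * A) := by simp only [mul_assoc]
  rw [e, h1, mul_one, Matrix.trace_mul_comm, mul_assoc _ Dᵀ A, mul_assoc _ (Dᵀ * A) D, h1,
    mul_one]

end core

/-- the main inequality -/
theorem main (tri : TriStmt) {v l S W A : Matrix X X ℝ} {g : X → Matrix X X ℝ}
    {e₀ ϖ δ ν τ : ℝ} {p : ℕ} (hτ : 0 < τ) (hp : 2 ≤ p) (he : 1 ≤ e₀) (hϖ : 0 < ϖ) (hδ : 0 ≤ δ)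
    (hν : 0 ≤ ν) (hv : vᵀ = v) (hv0 : ∀ f, 0 ≤ qf v f) (hv1 : ∀ a, ∑ b, v a b = 0)
    (hg : ∀ c, (g c)ᵀ = g c) (hS : Sᵀ = S) (hS0 : ∀ f, 0 ≤ qf S f)
    (hl : ∀ f : X → ℝ, ((1 - δ) * qf v f - ∑ a, (v *ᵥ f) a ^ 2) / τ ≤ qf l f)
    (hgA : ∀ f : X → ℝ, ∑ c, qf A (g c *ᵥ f) ≤ ν * qf v f)
    (hAϖ : ∀ f : X → ℝ, ϖ * qf A f ≤ δ * ∑ a, f a ^ 2)
    (hAe : A = e₀ • (1 : Matrix X X ℝ) + τ • S) (hW : Wᵀ = W)
    (hWB : (v + P0 X + ϖ • (1 : Matrix X X ℝ)) * W = 1) (hWA : ∀ f, qf W f ≤ qf A f)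
    (hAB : ∀ f, qf A⁻¹ f ≤ qf (v + P0 X + ϖ • (1 : Matrix X X ℝ)) f) :
    p * Matrix.trace ((A⁻¹ * W) ^ (p - 1) *
        (A⁻¹ * (-(W * l * W) + ∑ c, W * g c * W * g c * W) + A⁻¹ * S * A⁻¹ * W)) +
      p / 2 * ∑ c, ∑ i ∈ Finset.range (p - 1), Matrix.trace (A⁻¹ * (-(W * g c * W)) *
        (A⁻¹ * W) ^ i * (A⁻¹ * (-(W * g c * W))) * (A⁻¹ * W) ^ (p - 2 - i)) ≤
    (p * (2 * δ / τ + ν) + p ^ 2 * ν * e₀) * Matrix.trace ((A⁻¹ * W) ^ p) +
      Fintype.card X * (1 / e₀) ^ p * (p / τ + p ^ 2 * ν * e₀) := by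
  have he0 : 0 < e₀ := by linarith
  have hAs : Aᵀ = A := by
    rw [hAe, Matrix.transpose_add, Matrix.transpose_smul, Matrix.transpose_smul,
      Matrix.transpose_one, hS]
  have hqA : ∀ f : X → ℝ, qf A f = e₀ * (f ⬝ᵥ f) + τ * qf S f := by
    intro f
    rw [hAe, qf_add, qf_smul, qf_smul, qf_one]
  obtain ⟨D, h1⟩ := fac hAs he0 (fun f => by
    rw [hqA]
    have := mul_nonneg hτ.le (hS0 f)
    linarith)
  -- the inverse
  have h3 : A * (D * Dᵀ) = 1 := by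
    have e : Dᵀ * (A * D) = 1 := by rw [← mul_assoc, h1]
    have e2 := mul_eq_one_comm.1 e
    rw [mul_assoc] at e2
    exact e2
  have h2 : D * Dᵀ * A = 1 := mul_eq_one_comm.1 h3
  have hinv : A⁻¹ = D * Dᵀ := Matrix.inv_eq_right_inv h3
  obtain ⟨Y, hY⟩ : ∃ Y, Y = Dᵀ * W * D := ⟨_, rfl⟩
  have hYs : Yᵀ = Y := by
    rw [hY, Matrix.transpose_mul, Matrix.transpose_mul, Matrix.transpose_transpose, hW, mul_assoc]
  obtain ⟨e, y, hee, hye, htr⟩ := diag hYs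
  have hform := form hτ hϖ hδ hv hv0 hv1 hg hl hgA hν hAϖ hW hWB hWA
  have hyD : ∀ i, y i = qf W (D *ᵥ e i) := by
    intro i
    rw [hye, hY, qf_conj]
  have hy0 : ∀ i, 0 ≤ y i := by
    intro i
    rw [hyD]
    exact (hform _).2.2
  obtain ⟨d, hd⟩ : ∃ d : X → ℝ, ∀ i, d i = (D *ᵥ e i) ⬝ᵥ (D *ᵥ e i) := ⟨_, fun _ => rfl⟩
  have hd0 : ∀ i, 0 ≤ d i := by
    intro i
    rw [hd]
    exact dot_nn _
  have hdS : ∀ i, e₀ * d i + τ * qf S (D *ᵥ e i) = 1 := by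
    intro i
    have e1 := qf_conj D A (e i)
    rw [h1, qf_one, hee, hqA, ← hd] at e1
    exact e1.symm
  have hd1 : ∀ i, d i ≤ 1 / e₀ := by
    intro i
    rw [le_div_iff₀ he0]
    have e1 := hdS i
    have e2 := mul_nonneg hτ.le (hS0 (D *ᵥ e i))
    linarith
  obtain ⟨k, rfl⟩ : ∃ k, p = k + 2 := ⟨p - 2, by omega⟩
  have ek1 : k + 2 - 1 = k + 1 := rfl
  have ek2 : k + 2 - 2 = k := rfl
  rw [ek1, ek2, hinv]
  -- the traces of the powers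
  have htp : ∀ m : ℕ, Matrix.trace ((D * Dᵀ * W) ^ m) = ∑ i, y i ^ m := by
    intro m
    rw [tr1 h1 h2, ← hY]
    have e1 := htr m 1
    rw [mul_one] at e1
    rw [e1]
    refine Finset.sum_congr rfl fun i _ => ?_
    rw [qf_one, hee, mul_one]
  -- first order
  obtain ⟨Wl, hWl⟩ : ∃ Wl, Wl = -(W * l * W) + ∑ c, W * g c * W * g c * W := ⟨_, rfl⟩
  have hT1 : Matrix.trace ((D * Dᵀ * W) ^ (k + 1) *
      (D * Dᵀ * Wl + D * Dᵀ * S * (D * Dᵀ) * W)) =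
      ∑ i, (y i ^ (k + 1) * qf Wl (D *ᵥ e i) + y i ^ (k + 2) * qf S (D *ᵥ e i)) := by
    rw [mul_add, Matrix.trace_add, tr2 h1 h2, tr3 h1 h2, ← hY, htr, htr,
      Finset.sum_add_distrib]
    congr 1
    · exact Finset.sum_congr rfl fun i _ => by rw [qf_conj]
    · exact Finset.sum_congr rfl fun i _ => by rw [qf_conj]
  have hT1' : Matrix.trace ((D * Dᵀ * W) ^ (k + 1) *
      (D * Dᵀ * Wl + D * Dᵀ * S * (D * Dᵀ) * W)) ≤
      ∑ i, ((2 * δ / τ + ν) * y i ^ (k + 2) + (1 / e₀) ^ (k + 2) / τ) := by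
    rw [hT1]
    refine Finset.sum_le_sum fun i _ => ?_
    have e1 := (hform (D *ᵥ e i)).1
    rw [← hWl, ← hyD, ← hd] at e1
    have e2 : qf S (D *ᵥ e i) = (1 - e₀ * d i) / τ := by
      rw [eq_div_iff hτ.ne']
      have := hdS i
      linarith
    have e3 : y i ^ (k + 1) * qf Wl (D *ᵥ e i) ≤
        y i ^ (k + 1) * ((1 / τ) * (-(1 - 2 * δ) * y i + d i) + ν * y i) :=
      mul_le_mul_of_nonneg_left e1 (pow_nonneg (hy0 i) _)
    have e4 := scal (hy0 i) he (k + 1)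
    have e5 : d i * (y i ^ (k + 1) - e₀ * y i ^ (k + 1 + 1)) ≤ (1 / e₀) * (1 / e₀) ^ (k + 1) :=
      (mul_le_mul_of_nonneg_left e4 (hd0 i)).trans
        (mul_le_mul_of_nonneg_right (hd1 i) (by positivity))
    have e6 : y i ^ (k + 1) * ((1 / τ) * (-(1 - 2 * δ) * y i + d i) + ν * y i) +
        y i ^ (k + 2) * ((1 - e₀ * d i) / τ) = (2 * δ / τ + ν) * y i ^ (k + 2) +
        d i * (y i ^ (k + 1) - e₀ * y i ^ (k + 1 + 1)) / τ := by
      field_simp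
      ring
    have e7 : d i * (y i ^ (k + 1) - e₀ * y i ^ (k + 1 + 1)) / τ ≤ (1 / e₀) ^ (k + 2) / τ := by
      refine div_le_div_of_nonneg_right ?_ hτ.le
      rw [show (1 / e₀) ^ (k + 2) = (1 / e₀) * (1 / e₀) ^ (k + 1) by ring]
      exact e5
    rw [e2]
    linarith
  -- second order
  have hYp : Y.PosSemidef := by
    refine Matrix.PosSemidef.of_dotProduct_mulVec_nonneg ?_ fun x => ?_
    · unfold Matrix.IsHermitian
      rw [Matrix.conjTranspose_eq_transpose_of_trivial, hYs]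
    · have e1 : star x ⬝ᵥ (Y *ᵥ x) = qf Y x := rfl
      rw [e1, hY, qf_conj]
      exact (hform _).2.2
  have hN : ∀ c, Matrix.trace (Y ^ k * ((Dᵀ * (-(W * g c * W)) * D) *
      (Dᵀ * (-(W * g c * W)) * D))) ≤
      ∑ i, y i ^ k * qf A (g c *ᵥ (W *ᵥ (D *ᵥ e i))) := by
    intro c
    rw [htr]
    refine Finset.sum_le_sum fun i _ => mul_le_mul_of_nonneg_left ?_ (pow_nonneg (hy0 i) _)
    obtain ⟨z, hz⟩ : ∃ z, z = g c *ᵥ (W *ᵥ (D *ᵥ e i)) := ⟨_, rfl⟩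
    rw [← hz]
    have hNs : (Dᵀ * (-(W * g c * W)) * D)ᵀ = Dᵀ * (-(W * g c * W)) * D := by
      rw [Matrix.transpose_mul, Matrix.transpose_mul, Matrix.transpose_transpose,
        Matrix.transpose_neg, Matrix.transpose_mul, Matrix.transpose_mul, hW, hg]
      simp only [mul_assoc]
    have e1 : (Dᵀ * (-(W * g c * W)) * D) *ᵥ e i = -(Dᵀ *ᵥ (W *ᵥ z)) := by
      rw [hz]
      simp only [Matrix.mulVec_mulVec, mul_neg, neg_mul, Matrix.neg_mulVec, mul_assoc]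
    have e2 : qf ((Dᵀ * (-(W * g c * W)) * D) * (Dᵀ * (-(W * g c * W)) * D)) (e i) =
        qf (D * Dᵀ) (W *ᵥ z) := by
      rw [qf_dot, ← Matrix.mulVec_mulVec, sym_dot hNs, e1, neg_dotProduct, dotProduct_neg,
        neg_neg, qf_dot, ← Matrix.mulVec_mulVec, tr_dot D]
    rw [e2, ← hinv]
    refine (hAB _).trans ?_
    have e3 : qf (v + P0 X + ϖ • (1 : Matrix X X ℝ)) (W *ᵥ z) = qf W z := by
      rw [qf_dot, Matrix.mulVec_mulVec, hWB, Matrix.one_mulVec, qf_dot, dotProduct_comm]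
    rw [e3]
    exact hWA z
  have hT2 : ∑ c, ∑ i ∈ Finset.range (k + 1), Matrix.trace (D * Dᵀ * (-(W * g c * W)) *
        (D * Dᵀ * W) ^ i * (D * Dᵀ * (-(W * g c * W))) * (D * Dᵀ * W) ^ (k - i)) ≤
      (k + 1) * (ν * ∑ i, y i ^ (k + 1)) := by
    have e1 : ∀ c, ∑ i ∈ Finset.range (k + 1), Matrix.trace (D * Dᵀ * (-(W * g c * W)) *
        (D * Dᵀ * W) ^ i * (D * Dᵀ * (-(W * g c * W))) * (D * Dᵀ * W) ^ (k - i)) ≤
        (k + 1) * ∑ i, y i ^ k * qf A (g c *ᵥ (W *ᵥ (D *ᵥ e i))) := by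
      intro c
      have e2 := tri ℝ X Y (Dᵀ * (-(W * g c * W)) * D) k hYp.1 (by
        unfold Matrix.IsHermitian
        rw [Matrix.conjTranspose_eq_transpose_of_trivial]
        rw [Matrix.transpose_mul, Matrix.transpose_mul, Matrix.transpose_transpose,
          Matrix.transpose_neg, Matrix.transpose_mul, Matrix.transpose_mul, hW, hg]
        simp only [mul_assoc]) (Or.inl hYp)
      simp only [RCLike.re_to_real] at e2
      rw [Finset.sum_congr rfl fun i _ => by rw [tr4 h1 h2, ← hY]]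
      refine e2.trans (mul_le_mul_of_nonneg_left (hN c) (by positivity))
    refine (Finset.sum_le_sum fun c _ => e1 c).trans ?_
    rw [← Finset.mul_sum]
    refine mul_le_mul_of_nonneg_left ?_ (by positivity)
    rw [Finset.sum_comm, Finset.mul_sum]
    refine Finset.sum_le_sum fun i _ => ?_
    rw [← Finset.mul_sum]
    have e3 := hgA (W *ᵥ (D *ᵥ e i))
    have e4 := (hform (D *ᵥ e i)).2.1
    rw [← hyD] at e4
    calc y i ^ k * ∑ c, qf A (g c *ᵥ (W *ᵥ (D *ᵥ e i))) ≤ y i ^ k * (ν * y i) :=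
          mul_le_mul_of_nonneg_left (e3.trans (mul_le_mul_of_nonneg_left e4 hν))
            (pow_nonneg (hy0 i) _)
      _ = ν * y i ^ (k + 1) := by ring
  have hT3 : ∑ i, y i ^ (k + 1) ≤ e₀ * ∑ i, y i ^ (k + 2) +
      Fintype.card X * (1 / e₀) ^ (k + 1) := by
    have e1 : ∀ i, y i ^ (k + 1) ≤ e₀ * y i ^ (k + 2) + (1 / e₀) ^ (k + 1) := by
      intro i
      have := scal (hy0 i) he (k + 1)
      have e2 : k + 1 + 1 = k + 2 := rfl
      rw [e2] at this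
      linarith
    refine (Finset.sum_le_sum fun i _ => e1 i).trans ?_
    rw [Finset.sum_add_distrib, ← Finset.mul_sum, Finset.sum_const, nsmul_eq_mul,
      Finset.card_univ]
  rw [← hWl, htp]
  have hT1'' : Matrix.trace ((D * Dᵀ * W) ^ (k + 1) *
      (D * Dᵀ * Wl + D * Dᵀ * S * (D * Dᵀ) * W)) ≤
      (2 * δ / τ + ν) * ∑ i, y i ^ (k + 2) + Fintype.card X * ((1 / e₀) ^ (k + 2) / τ) := by
    refine hT1'.trans (le_of_eq ?_)
    rw [Finset.sum_add_distrib, ← Finset.mul_sum, Finset.sum_const, nsmul_eq_mul,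
      Finset.card_univ]
  obtain ⟨P, hP⟩ : ∃ P : ℝ, P = ∑ i, y i ^ (k + 2) := ⟨_, rfl⟩
  obtain ⟨Z, hZ⟩ : ∃ Z : ℝ, Z = Fintype.card X * (1 / e₀) ^ (k + 2) := ⟨_, rfl⟩
  have hP0 : 0 ≤ P := by
    rw [hP]
    exact Finset.sum_nonneg fun i _ => pow_nonneg (hy0 i) _
  have hZ0 : 0 ≤ Z := by rw [hZ]; positivity
  have hZ1 : Fintype.card X * (1 / e₀) ^ (k + 1) = e₀ * Z := by
    rw [hZ, pow_succ (1 / e₀) (k + 1)]
    calc (Fintype.card X : ℝ) * (1 / e₀) ^ (k + 1) =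
        (Fintype.card X : ℝ) * ((1 / e₀) ^ (k + 1) * (e₀ * (1 / e₀))) := by
          rw [mul_one_div_cancel he0.ne', mul_one]
      _ = e₀ * ((Fintype.card X : ℝ) * ((1 / e₀) ^ (k + 1) * (1 / e₀))) := by ring
  rw [hZ1, ← hP] at hT3
  rw [← hP] at hT1'' ⊢
  rw [← hZ]
  have hT1f : Matrix.trace ((D * Dᵀ * W) ^ (k + 1) *
      (D * Dᵀ * Wl + D * Dᵀ * S * (D * Dᵀ) * W)) ≤ (2 * δ / τ + ν) * P + Z / τ := by
    refine hT1''.trans (le_of_eq ?_)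
    rw [hZ]
    ring
  have hT2f : ∑ c, ∑ i ∈ Finset.range (k + 1), Matrix.trace (D * Dᵀ * (-(W * g c * W)) *
        (D * Dᵀ * W) ^ i * (D * Dᵀ * (-(W * g c * W))) * (D * Dᵀ * W) ^ (k - i)) ≤
      (k + 1) * (ν * (e₀ * (P + Z))) := by
    refine hT2.trans (mul_le_mul_of_nonneg_left (mul_le_mul_of_nonneg_left ?_ hν) (by positivity))
    linarith
  push_cast
  have hk2 : (0 : ℝ) ≤ (k : ℝ) + 2 := by positivity
  have f1 := mul_le_mul_of_nonneg_left hT1f hk2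
  have f2 := mul_le_mul_of_nonneg_left hT2f (by positivity : (0 : ℝ) ≤ ((k : ℝ) + 2) / 2)
  have f3 : ((k : ℝ) + 2) / 2 * (((k : ℝ) + 1) * (ν * (e₀ * (P + Z)))) ≤
      ((k : ℝ) + 2) ^ 2 * (ν * (e₀ * (P + Z))) := by
    have f4 : 0 ≤ ν * (e₀ * (P + Z)) := by positivity
    have f5 : ((k : ℝ) + 2) / 2 * ((k : ℝ) + 1) ≤ ((k : ℝ) + 2) ^ 2 := by
      have : (0 : ℝ) ≤ k := by positivity
      nlinarith
    calc ((k : ℝ) + 2) / 2 * (((k : ℝ) + 1) * (ν * (e₀ * (P + Z)))) =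
        (((k : ℝ) + 2) / 2 * ((k : ℝ) + 1)) * (ν * (e₀ * (P + Z))) := by ring
      _ ≤ ((k : ℝ) + 2) ^ 2 * (ν * (e₀ * (P + Z))) := mul_le_mul_of_nonneg_right f5 f4
  have f6 : ((k : ℝ) + 2) * ((2 * δ / τ + ν) * P + Z / τ) +
      ((k : ℝ) + 2) ^ 2 * (ν * (e₀ * (P + Z))) =
      (((k : ℝ) + 2) * (2 * δ / τ + ν) + ((k : ℝ) + 2) ^ 2 * ν * e₀) * P +
        Z * (((k : ℝ) + 2) / τ + ((k : ℝ) + 2) ^ 2 * ν * e₀) := by ring
  linarith

end Pool.Agent.LE.QF.H40
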